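import Pool.Agent.H677_SC.Basic

set_option autoImplicit false

open Finset

namespace Pool.Agent.Results.MP_270153_nt.NoConstantForFifteen

/-- The rising factorial `(a)_k`. -/
def poch (a : ℚ) (k : ℕ) : ℚ := ∏ i ∈ range k, (a + i)

/-- `S_m(N)`. -/
def S (m N : ℕ) : ℚ :=
  ∑ k ∈ range (N + 1), (4 * k - 1) ^ m * poch (-1 / 2) k ^ 4 / (k.factorial : ℚ) ^ 4

/-- `u ≡ v` modulo `p ^ m` for rationals with denominator prime to `p`: the difference is
`p ^ m` times a rational number whose denominator is not divisible by `p`. -/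
def Congr (p m : ℕ) (u v : ℚ) : Prop := ∃ r : ℚ, ¬ p ∣ r.den ∧ u - v = (p : ℚ) ^ m * r

/-- Q1 is false: for `m = 15` there is no such integer `d_m`, already because of the prime `5`. -/
theorem result : ¬ ∀ m : ℕ, Odd m → ∃ d : ℤ, ∀ p : ℕ, p.Prime → p ≠ 2 → ∀ r : ℕ, 1 ≤ r →
    Congr p (r + 3) (S m ((p ^ r + 1) / 2)) (d * p ^ r) ∧
    Congr p (r + 3) (S m (p ^ r - 1)) (d * p ^ r) := by
  intro h
  obtain ⟨d, hd⟩ := h 15 (by decide)
  obtain ⟨r1, hr1, he1⟩ := (hd 5 (by norm_num) (by norm_num) 1 (by norm_num)).1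
  obtain ⟨r2, hr2, he2⟩ := (hd 5 (by norm_num) (by norm_num) 2 (by norm_num)).1
  have e1 : S 15 ((5 ^ 1 + 1) / 2) = 4253267926632275 / 65536 := by
    decide +kernel
  have e2 : S 15 ((5 ^ 2 + 1) / 2) = 550913570411112398834505539848007248519998875 / 4951760157141521099596496896 := by
    decide +kernel
  rw [e1] at he1
  rw [e2] at he2
  have k1 := Pool.Agent.H677_SC.dvd_of_den (p := 5) (m := 1 + 3) (by norm_num) hr1
    (d := 65536) (N := 4253267926632275 - 65536 * (5 * d)) (by
      rw [← he1]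
      push_cast
      ring)
  have k2 := Pool.Agent.H677_SC.dvd_of_den (p := 5) (m := 2 + 3) (by norm_num) hr2
    (d := 4951760157141521099596496896)
    (N := 550913570411112398834505539848007248519998875 -
      4951760157141521099596496896 * (25 * d)) (by
      rw [← he2]
      push_cast
      ring)
  norm_num at k1 k2
  omega

end Pool.Agent.Results.MP_270153_nt.NoConstantForFifteen
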